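import Mathlib
import Pool.Agent.helper63.Cas.Main

set_option autoImplicit false

namespace Pool.Agent.Results.MP_1cb037_nt.CasselsQuestion

/-- For every `h ≥ 2` and every sufficiently small `lam > 0` there is an asymptotic basis `A` of
order `h` whose `n`-th smallest element `a_n` satisfies `a_n = lam * n ^ h + o(n ^ (h - 1))`.
Here the `n`-th smallest element is `Nat.nth (· ∈ A) (n - 1)`. -/
theorem result :
    ∀ h : ℕ, 2 ≤ h →
      ∃ lam0 : ℝ, 0 < lam0 ∧ ∀ lam : ℝ, 0 < lam → lam ≤ lam0 →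
        ∃ A : Set ℕ, A.Infinite ∧
          (∃ n0 : ℕ, ∀ n ≥ n0, ∃ f : Fin h → ℕ, (∀ i, f i ∈ A) ∧ ∑ i, f i = n) ∧
          Asymptotics.IsLittleO Filter.atTop
            (fun n : ℕ => (Nat.nth (· ∈ A) (n - 1) : ℝ) - lam * (n : ℝ) ^ h)
            (fun n : ℕ => (n : ℝ) ^ (h - 1)) := by
  intro h hh
  obtain ⟨q, rfl⟩ : ∃ q, h = q + 2 := ⟨h - 2, by omega⟩
  exact Pool.Agent.helper63.Cas.main q

end Pool.Agent.Results.MP_1cb037_nt.CasselsQuestion
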